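import Mathlib
import Pool.Agent.PP.Words
import Pool.Agent.PPI.Und

/-!
# MP_b9b3f7_co, Q1: there is no algorithm which determines the pairs `σ ≤ π` for which the
order complex of the open interval has the homotopy type of a wedge of spheres

Definitions used (Pool/Agent/PP/Words.lean, Pool/Agent/CT/Defs.lean): `PermWord` is the poset
of all finite permutations (words in which each of `1, ..., n` appears exactly once, ordered
by pattern containment), `OC Q` is the family of the nonempty finite chains of `Q`, `Rz K` is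
the geometric realisation of `K`, `IsWedge X` says that `X` has the homotopy type of a
one-point union of finitely many unit spheres (no sphere: a point), or that `X` is empty (the
sphere of dimension `-1`), `HasZ2 X` says that some fundamental group of `X` contains two
commuting elements `a`, `b` with `a ^ i * b ^ j = 1` only for `i = j = 0`.
-/

namespace Pool.Agent.Results.MP_b9b3f7_co.Undecidable

open PP CT
open scoped ContinuousMap

/-- the interior of the interval between `σ` and `π` -/
def interior (σ π : PermWord) : Set PermWord := {τ | σ ≤ τ ∧ τ ≤ π ∧ τ ≠ σ ∧ τ ≠ π}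

/-- the geometric realisation of the order complex of the interior of the interval -/
abbrev Delta (σ π : PermWord) : Type := Rz (OC (interior σ π))

theorem interior_eq (σ π : PermWord) : interior σ π = Set.Ioo σ π := by
  ext τ
  constructor
  · rintro ⟨h1, h2, h3, h4⟩
    exact ⟨lt_of_le_of_ne h1 (Ne.symm h3), lt_of_le_of_ne h2 h4⟩
  · rintro ⟨h1, h2⟩
    exact ⟨h1.le, h2.le, h1.ne', h2.ne⟩

/-- comparison with the poset of permutations of `{0, ..., n - 1}` -/
theorem delta_congr (σ π : PermWord) :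
    Nonempty (Delta σ π ≃ₜ Rz (OC (Set.Ioo (toP σ) (toP π)))) := by
  refine rz_oc_congr toPe (interior σ π) (Set.Ioo (toP σ) (toP π)) ?_
  intro τ
  rw [interior_eq, Set.mem_Ioo, Set.mem_Ioo, ← toPe.lt_iff_lt, ← toPe.lt_iff_lt]
  exact Iff.rfl

/-- passing from lists of values in `{0, ..., n - 1}` to words -/
theorem words_aux {l l' : List ℕ} (h : IsPerm l) (h' : IsPerm l') {a b : PPerm}
    (ha : permOf l = a) (hb : permOf l' = b) (hab : a ≤ b) : ∃ σ π : PermWord,
    σ.1 = l.map (· + 1) ∧ π.1 = l'.map (· + 1) ∧ σ ≤ π ∧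
      Nonempty (Delta σ π ≃ₜ Rz (OC (Set.Ioo a b))) := by
  have e1 : toP ⟨_, isPermWord_succ h⟩ = a := (toP_succ h).trans ha
  have e2 : toP ⟨_, isPermWord_succ h'⟩ = b := (toP_succ h').trans hb
  refine ⟨⟨_, isPermWord_succ h⟩, ⟨_, isPermWord_succ h'⟩, rfl, rfl, ?_, ?_⟩
  · refine (contained_iff ⟨_, isPermWord_succ h⟩ ⟨_, isPermWord_succ h'⟩).2 ?_
    rw [e1, e2]
    exact hab
  · have f := delta_congr ⟨_, isPermWord_succ h⟩ ⟨_, isPermWord_succ h'⟩
    rw [e1, e2] at f
    exact f

/-- the words of the small and of the large permutation of a list of alternating words -/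
theorem words {g : PPI.Gates} (ok : g.OK) (T : List (List ℕ)) (hT : GoodT T) :
    ∃ σ π : PermWord, σ.1 = (PPI.sL g T).map (· + 1) ∧ π.1 = (PPI.pL g T).map (· + 1) ∧
    σ ≤ π ∧ Nonempty (Delta σ π ≃ₕ Rz (NCs T)) := by
  obtain ⟨h1, h2⟩ := PPI.sL_spec ok hT
  obtain ⟨h3, h4⟩ := PPI.pL_spec ok hT
  have B := PPI.pdG_PD ok hT
  obtain ⟨e⟩ := PPI.glob_equiv ok hT B
  obtain ⟨σ, π, a, b, c, ⟨f⟩⟩ := words_aux h1 h3 h2 h4
    (B.anti _ _ (Finset.empty_subset _) (Finset.filter_subset _ _))
  exact ⟨σ, π, a, b, c, ⟨f.toHomotopyEquiv.trans e⟩⟩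

/-- every recursively enumerable set is reduced to the wedge property -/
theorem reduction (A : ℕ → Prop) (hA : REPred A) : ∃ s p : ℕ → List ℕ, Primrec s ∧
    Primrec p ∧ ∀ n, ∃ σ π : PermWord, σ.1 = s n ∧ π.1 = p n ∧ σ ≤ π ∧
      (A n → IsWedge (Delta σ π)) ∧ (¬ A n → HasZ2 (Delta σ π)) := by
  obtain ⟨g, ok⟩ : ∃ g : PPI.Gates, g.OK := ⟨PPI.gates, PPI.gates_ok⟩
  obtain ⟨c, hc, hcA⟩ := PPI.hf_complete hA
  obtain ⟨T, h1, h2, -, h4, h5⟩ := star_family_strong
  have hm : ∀ {f : List (List ℕ) → List ℕ}, Primrec f →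
      Primrec (fun n => (f (T (c n))).map (· + 1)) := by
    intro f hf
    exact Primrec.list_map (hf.comp (h1.comp hc)) (Primrec.succ.comp Primrec.snd)
  refine ⟨_, _, hm (PPI.primrec_sL g), hm (PPI.primrec_pL g), fun n => ?_⟩
  obtain ⟨σ, π, a, b, d, ⟨e⟩⟩ := words ok (T (c n)) (h2 (c n))
  refine ⟨σ, π, a, b, d, fun h => ?_, fun h => ?_⟩
  · exact isWedge_of_equiv e.symm (h4 (c n) ((hcA n).2 h)).1
  · exact hasZ2_of_equiv e.symm (h5 (c n) (fun h' => h ((hcA n).1 h')))

/-- **Undecidability of the wedge property of intervals of permutations.** -/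
theorem result :
    -- no algorithm decides, for given permutations `σ ≤ π`, whether the order complex of the
    -- open interval has the homotopy type of a wedge of spheres
    (¬ ∃ f : List ℕ × List ℕ → Bool, Computable f ∧ ∀ σ π : PermWord, σ ≤ π →
      (f (σ.1, π.1) = true ↔ IsWedge (Delta σ π))) ∧
    -- the pairs for which it is not a wedge of spheres cannot be enumerated by an algorithm
    (¬ REPred fun q : List ℕ × List ℕ => ∃ σ π : PermWord, q = (σ.1, π.1) ∧ σ ≤ π ∧
      ¬ IsWedge (Delta σ π)) ∧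
    -- every recursively enumerable set of natural numbers is reduced to the wedge property
    -- by primitive recursive functions; outside of the set some fundamental group even
    -- contains two commuting independent elements
    (∀ A : ℕ → Prop, REPred A → ∃ s p : ℕ → List ℕ, Primrec s ∧ Primrec p ∧
      ∀ n, ∃ σ π : PermWord, σ.1 = s n ∧ π.1 = p n ∧ σ ≤ π ∧
        (A n → IsWedge (Delta σ π)) ∧ (¬ A n → HasZ2 (Delta σ π))) ∧
    -- such a space is not a wedge of spheres
    (∀ (X : Type) [TopologicalSpace X], HasZ2 X → ¬ IsWedge X) := by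
  obtain ⟨s, p, hs, hp, h⟩ := reduction (fun n => (NB.hf n).Dom) NB.hf_partrec.dom_re
  have hn : ∀ n (σ π : PermWord), σ.1 = s n → π.1 = p n →
      (IsWedge (Delta σ π) ↔ (NB.hf n).Dom) := by
    intro n σ π h1 h2
    obtain ⟨σ', π', h3, h4, -, h5, h6⟩ := h n
    have e1 : σ = σ' := Subtype.ext (h1.trans h3.symm)
    have e2 : π = π' := Subtype.ext (h2.trans h4.symm)
    subst e1 e2
    exact ⟨fun h7 => by
      by_contra h8
      exact not_isWedge (h6 h8) h7, h5⟩
  refine ⟨?_, ?_, reduction, fun X _ h => not_isWedge h⟩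
  · rintro ⟨f, hf, h7⟩
    refine NB.hf_not_computable ?_
    have h4 : Computable (fun n => f (s n, p n)) := hf.comp (hs.pair hp).to_comp
    refine ComputablePred.computable_iff.2 ⟨_, h4, ?_⟩
    funext n
    obtain ⟨σ, π, h1, h2, h3, -⟩ := h n
    rw [← hn n σ π h1 h2, ← h7 σ π h3, h1, h2]
  · intro h7
    refine NB.hf_not_re ?_
    have h4 : REPred (fun n => (fun q : List ℕ × List ℕ => ∃ σ π : PermWord,
        q = (σ.1, π.1) ∧ σ ≤ π ∧ ¬ IsWedge (Delta σ π)) (s n, p n)) :=
      Partrec.comp h7 (hs.pair hp).to_comp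
    refine h4.of_eq fun n => ?_
    constructor
    · rintro ⟨σ, π, h1, -, h3⟩ h6
      have h8 := Prod.mk.inj h1
      exact h3 ((hn n σ π h8.1.symm h8.2.symm).2 h6)
    · intro h5
      obtain ⟨σ, π, h1, h2, h3, -⟩ := h n
      exact ⟨σ, π, by rw [h1, h2], h3, fun h6 => h5 ((hn n σ π h1 h2).1 h6)⟩

end Pool.Agent.Results.MP_b9b3f7_co.Undecidable
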